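import Pool.Agent.P.MP_6e34ef_nt.Roth.Step

set_option autoImplicit false

namespace Pool.Agent.P.MP_6e34ef_nt.Roth

open Finset MvPolynomial

variable {K : Type} [Field K]

/-- the relative index after `k` eliminations -/
noncomputable def dl : ℕ → ℝ → ℝ
  | 0, δ => δ
  | k + 1, δ => dl k (δ ^ 2 / 16)

theorem dl_pos (k : ℕ) {δ : ℝ} (h : 0 < δ) : 0 < dl k δ := by
  induction k generalizing δ with
  | zero => exact h
  | succ k ih => exact ih (by positivity)

theorem dl_le (k : ℕ) {δ : ℝ} (h : 0 < δ) (h1 : δ ≤ 1) : dl k δ ≤ δ := by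
  induction k generalizing δ with
  | zero => exact le_rfl
  | succ k ih => exact (ih (by positivity) (by nlinarith)).trans (by nlinarith)

theorem wt_single {n : ℕ} (i : Fin n) (d : Fin n →₀ ℕ) : wt (Pi.single i 1) d = d i := by
  simp [wt, Finsupp.weight_single_index]

theorem iter (k : ℕ) (δ : ℝ) (hδ : 0 < δ) (hδ1 : δ ≤ 1) (c D : ℕ) (hD : 1 ≤ D) (σ C1 m0 : ℝ)
    (hC : 2 / dl k δ ≤ C1) (hσ : 0 ≤ σ) (hm0 : 0 ≤ m0) (A : MvPolynomial (Fin (k + 1)) ℤ)
    (hA : A ≠ 0) (θ ω : Fin (k + 1) → ℝ) (ξ : Fin (k + 1) → K)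
    (hξ : ∀ i : Fin k, ξ i.castSucc ≠ 0) (hω : ∀ i : Fin k, ω i.castSucc = 1)
    (hωl : ω (Fin.last k) = m0) (hdeg : ∀ i : Fin k, Wd (Pi.single i.castSucc 1) D A)
    (hθ : Wd θ (σ * D) A) (hl : l1 A ≤ 2 ^ (c * D)) (hν : Lo ω (δ * D) (sh ξ A))
    (hres : ∀ d d' : Fin (k + 1) →₀ ℕ, (∀ i : Fin k, |(d i.castSucc : ℝ) - d' i.castSucc| ≤ C1) →
      |wt θ d - wt θ d'| ≤ C1 * σ → d = d') :
    ∃ (D' : ℕ) (R : MvPolynomial (Fin 1) ℤ), 1 ≤ D' ∧ R ≠ 0 ∧ l1 R ≤ 2 ^ ((c + 4 * k) * D') ∧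
      Lo (fun _ => m0) (dl k δ * D') (sh (fun _ => ξ (Fin.last k)) R) := by
  induction k generalizing δ c D with
  | zero =>
    refine ⟨D, A, hD, hA, by simpa using hl, ?_⟩
    have e1 : (fun _ => m0) = ω := funext fun i => by
      rw [← hωl]; congr 1; exact Subsingleton.elim (α := Fin 1) _ _
    have e2 : (fun _ => ξ (Fin.last 0)) = ξ := funext fun i => by
      congr 1; exact Subsingleton.elim (α := Fin 1) _ _
    rw [e1, e2]
    exact hν
  | succ k ih =>
    have hD' : (1 : ℝ) ≤ D := by exact_mod_cast hD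
    have hm : 0 < δ * D := by positivity
    set e := ⌊δ * D / 2⌋₊ with he
    have he1 : (e : ℝ) ≤ δ * D / 2 := Nat.floor_le (by positivity)
    have he2 : δ * D / 2 < e + 1 := Nat.lt_floor_add_one _
    have hC2 : 2 ≤ C1 * δ := by
      have h1 := dl_le (k + 1) hδ hδ1
      have h2 := dl_pos (k + 1) hδ
      rw [div_le_iff₀ h2] at hC
      have : 0 ≤ C1 := by
        by_contra! h
        nlinarith
      nlinarith
    have hωnn : ∀ i, 0 ≤ ω i := fun i => by
      induction i using Fin.lastCases with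
      | last => rwa [hωl]
      | cast i => rw [hω]; exact zero_le_one
    have key : ∀ x s : ℝ, 0 ≤ s → ((e + 1 : ℕ) : ℝ) * x ≤ s * D → x ≤ C1 * s := by
      intro x s hs h
      push_cast at h
      by_contra! hx
      have hC0 : 0 < C1 := by
        by_contra! h
        nlinarith
      have hx0 : 0 < x := lt_of_le_of_lt (by positivity) hx
      have h1 : δ * D / 2 * x < s * D := lt_of_lt_of_le (mul_lt_mul_of_pos_right he2 hx0) h
      have h2 : δ * x < 2 * s := by nlinarith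
      nlinarith
    obtain ⟨R, hR, hW, hlR, hνR⟩ := step A hA D (c * D) e ξ (hξ 0) ω (hω 0) hωnn (δ * D)
      (by linarith) (by nlinarith) (hdeg 0) hl hν (by
        intro G Q hGQ d d' hd hd'
        have hQ : Q ≠ 0 := by rintro rfl; exact hA (by simpa using hGQ)
        rw [hGQ] at hdeg hθ
        refine hres d d' (fun i => ?_) ?_
        · have h1 := (hdeg i).of_pow hQ hd hd'
          have h2 := (hdeg i).of_pow hQ hd' hd
          rw [wt_single, wt_single] at h1 h2
          have h3 := key _ 1 zero_le_one (by simpa using h1)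
          have h4 := key _ 1 zero_le_one (by simpa using h2)
          rw [abs_le]
          constructor <;> linarith
        · have h3 := key _ σ hσ (hθ.of_pow hQ hd hd')
          have h4 := key _ σ hσ (hθ.of_pow hQ hd' hd)
          rw [abs_le]
          constructor <;> linarith)
    obtain ⟨D', R', h1, h2, h3, h4⟩ := ih (δ ^ 2 / 16) (by positivity) (by nlinarith) (c + 4)
      (2 * D * D) (by nlinarith) hC R hR (Fin.tail θ) (Fin.tail ω) (Fin.tail ξ)
      (fun i => hξ i.succ) (fun i => hω i.succ) hωl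
      (fun i => by
        have := hW _ _ (hdeg i.succ)
        have e1 : Fin.tail (Pi.single i.succ.castSucc 1 : Fin (k + 2) → ℝ) =
            Pi.single i.castSucc 1 := by
          funext j
          rw [← Fin.succ_castSucc]
          simp [Fin.tail, Pi.single_apply]
        rw [e1] at this
        exact this.mono (le_of_eq (by push_cast; ring)))
      ((hW _ _ hθ).mono (le_of_eq (by push_cast; ring)))
      (hlR.trans (le_of_eq (by congr 1; ring)))
      (hνR.mono (by push_cast; nlinarith))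
      (fun d d' h1 h2 => by
        refine Finsupp.cons_right_injective 0 (hres (d.cons 0) (d'.cons 0) (fun i => ?_) ?_)
        · induction i using Fin.cases with
          | zero =>
            have : 0 ≤ C1 := by
              by_contra! h
              nlinarith
            simpa using this
          | succ i => simpa [← Fin.succ_castSucc] using h1 i
        · simpa [wt_cons] using h2)
    exact ⟨D', R', h1, h2, h3.trans (le_of_eq (by congr 1; ring)), h4⟩

theorem one_var (R : MvPolynomial (Fin 1) ℤ) (hR : R ≠ 0) (w0 : K) (m0 a : ℝ) (e : ℕ)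
    (he : ∀ i < e, (i : ℝ) * m0 < a) (hν : Lo (fun _ => m0) a (sh (fun _ => w0) R)) :
    ∃ p : Polynomial ℤ, p ≠ 0 ∧ ∑ i ∈ p.support, (p.coeff i).natAbs ≤ l1 R ∧
      (Polynomial.X - Polynomial.C w0) ^ e ∣ p.map (Int.castRingHom K) := by
  classical
  set p : Polynomial ℤ := (finSuccEquiv ℤ 0 R).map constantCoeff with hp
  have hc : ∀ i, p.coeff i = coeff ((0 : Fin 0 →₀ ℕ).cons i) R := fun i => by
    rw [hp, Polynomial.coeff_map, constantCoeff_eq, ← finSuccEquiv_coeff_coeff]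
  refine ⟨p, ?_, ?_, ?_⟩
  · obtain ⟨d, hd⟩ := ne_zero_iff.1 hR
    intro h0
    apply hd
    have := hc (d 0)
    rw [h0, Polynomial.coeff_zero] at this
    rw [← Finsupp.cons_tail d, Subsingleton.elim d.tail 0]
    exact this.symm
  · simp only [hc]
    rw [l1, ← sum_image (f := fun d => (coeff d R).natAbs)
      (g := fun i : ℕ => (0 : Fin 0 →₀ ℕ).cons i)
      (fun x _ y _ h => by simpa using congrArg (fun d => d 0) h)]
    refine sum_le_sum_of_subset fun d hd => ?_
    obtain ⟨x, hx, rfl⟩ := mem_image.1 hd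
    rw [mem_support_iff, ← hc]
    exact Polynomial.mem_support_iff.1 hx
  · rw [Polynomial.X_sub_C_pow_dvd_iff, Polynomial.X_pow_dvd_iff, ← Polynomial.taylor_apply]
    intro i hi
    have e1 : (constantCoeff : MvPolynomial (Fin 0) K →+* K).comp (sh (Fin.tail fun _ => w0)) =
        (Int.castRingHom K).comp constantCoeff := by
      apply ringHom_ext
      · intro r
        simp
      · exact fun i => i.elim0
    have e2 : Polynomial.taylor w0 (p.map (Int.castRingHom K)) =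
        (finSuccEquiv K 0 (sh (fun _ => w0) R)).map constantCoeff := by
      rw [finSucc_sh, psi_apply, Polynomial.map_taylor, hp, Polynomial.map_map, Polynomial.map_map,
        e1, constantCoeff_C]
    rw [e2, Polynomial.coeff_map, constantCoeff_eq, finSuccEquiv_coeff_coeff]
    by_contra h
    have := hν _ h
    rw [wt_cons, wt_zero, add_zero] at this
    exact absurd (he i hi) (not_lt.2 this)

theorem coeff_prod_lin (n : ℕ) (ξ : Fin n → K) (x : Fin n → ℕ) (d : Fin n →₀ ℕ) :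
    coeff d (∏ i, (X i + C (ξ i)) ^ x i : MvPolynomial (Fin n) K) =
      ∏ i, (((x i).choose (d i) : K) * ξ i ^ (x i - d i)) := by
  induction n with
  | zero => simp [Subsingleton.elim d 0]
  | succ n ih =>
    have hC : ∀ y : K, finSuccEquiv K n (C y) = Polynomial.C (C y) := fun y => by
      simp [finSuccEquiv_apply]
    conv_lhs => rw [← Finsupp.cons_tail d]
    rw [← finSuccEquiv_coeff_coeff, Fin.prod_univ_succ, Fin.prod_univ_succ]
    simp only [map_mul, map_pow, map_prod, map_add, finSuccEquiv_X_zero, finSuccEquiv_X_succ, hC]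
    simp only [← map_add, ← map_pow Polynomial.C, ← map_prod]
    rw [Polynomial.coeff_mul_C, Polynomial.coeff_X_add_C_pow, ← map_pow, ← map_natCast C,
      ← map_mul, coeff_C_mul, ih]
    simp only [Finsupp.tail_apply]
    ring

theorem coeff_sh_monomial {n : ℕ} (ξ : Fin n → K) (x d : Fin n →₀ ℕ) (r : ℤ) :
    coeff d (sh ξ (monomial x r)) = r * ∏ i, (((x i).choose (d i) : K) * ξ i ^ (x i - d i)) := by
  rw [sh, eval₂Hom_monomial, Finsupp.prod_fintype _ _ (by simp), ← coeff_prod_lin,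
    eq_intCast, ← map_intCast (C : K →+* MvPolynomial (Fin n) K), coeff_C_mul]

/-- exponent vector of the monomial attached to `z` -/
noncomputable def ex {k : ℕ} (z : Fin k → ℕ) (j : ℕ) : Fin (k + 1) →₀ ℕ :=
  Finsupp.equivFunOnFinite.symm (Fin.snoc z j)

theorem ex_cast {k : ℕ} (z : Fin k → ℕ) (j : ℕ) (i : Fin k) : ex z j i.castSucc = z i := by
  simp [ex]

theorem ex_last {k : ℕ} (z : Fin k → ℕ) (j : ℕ) : ex z j (Fin.last k) = j := by
  simp [ex]

theorem wt_last {k : ℕ} (φ : Fin (k + 1) → ℝ) (d : Fin (k + 1) →₀ ℕ) :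
    wt φ d = ∑ i : Fin k, (d i.castSucc : ℝ) * φ i.castSucc + d (Fin.last k) * φ (Fin.last k) := by
  rw [wt_eq_sum, Fin.sum_univ_castSucc]

theorem lo_sum_monomial {σ ι : Type} (φ : σ → ℝ) (a : ℝ) (s : Finset ι) (x : ι → σ →₀ ℕ)
    (c : ι → ℤ) (h : ∀ i ∈ s, a ≤ wt φ (x i)) : Lo φ a (∑ i ∈ s, monomial (x i) (c i)) := by
  classical
  refine Lo.sum _ _ fun i hi d hd => ?_
  rw [coeff_monomial] at hd
  split_ifs at hd with e
  · rw [← e]; exact h i hi
  · exact absurd rfl hd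

/-- Zero lemma of Roth type on a slanted domain. -/
theorem zero_lemma (k : ℕ) (δ : ℝ) (hδ : 0 < δ) (hδ1 : δ ≤ 1) (c0 : ℕ) :
    ∃ C1 C2 : ℕ, 1 ≤ C1 ∧ ∀ (K : Type) [Field K] (Z V : ℕ), 1 ≤ Z → δ * Z ≤ V →
      ∀ (τ : Fin k → ℝ), (∀ (m : Fin k → ℤ) (m' : ℤ), (∀ i, |m i| ≤ C1) →
        (Z : ℝ) * |(m' : ℝ) - ∑ i, (m i : ℝ) * τ i| ≤ C1 → m = 0 ∧ m' = 0) →
      ∀ (Ω : Finset (Fin k → ℕ)) (κ : (Fin k → ℕ) → ℕ) (c : (Fin k → ℕ) → ℤ),
      (∀ z ∈ Ω, ∀ i, z i ≤ Z) →
      (∀ z ∈ Ω, (κ z : ℝ) ≤ ∑ i, (z i : ℝ) * τ i ∧ ∑ i, (z i : ℝ) * τ i ≤ κ z + 1) →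
      (∃ z ∈ Ω, c z ≠ 0) → ∑ z ∈ Ω, (c z).natAbs ≤ 2 ^ (c0 * Z) →
      ∀ (t : Fin k → K) (w0 : K), (∀ i, t i ≠ 0) →
      (∀ a : Fin k → ℕ, ∑ i, a i < V →
        ∑ z ∈ Ω, (c z : K) * (∏ i, ((z i).choose (a i) : K)) * (∏ i, t i ^ z i) * w0 ^ κ z = 0) →
      ∃ (p : Polynomial ℤ) (e : ℕ), p ≠ 0 ∧ 1 ≤ e ∧
        (Polynomial.X - Polynomial.C w0) ^ e ∣ p.map (Int.castRingHom K) ∧
        ∑ i ∈ p.support, (p.coeff i).natAbs ≤ 2 ^ (C2 * V * e) := by
  classical
  have hdl := dl_pos k hδ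
  refine ⟨⌈2 / dl k δ⌉₊, ⌈((c0 + 4 * k : ℕ) : ℝ) / dl k δ⌉₊, Nat.ceil_pos.2 (by positivity), ?_⟩
  intro K _ Z V hZ hV τ hres Ω κ c hΩ hκ hc hl t w0 ht hvan
  have hZ' : (0 : ℝ) < Z := by exact_mod_cast hZ
  have hV' : (0 : ℝ) < V := lt_of_lt_of_le (by positivity) hV
  set F : MvPolynomial (Fin (k + 1)) ℤ := ∑ z ∈ Ω, monomial (ex z (κ z)) (c z) with hF
  set θ : Fin (k + 1) → ℝ := Fin.snoc (α := fun _ => ℝ) (fun i => -τ i) 1 with hθ
  set ω : Fin (k + 1) → ℝ := Fin.snoc (α := fun _ => ℝ) (fun _ => 1) V with hω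
  set ξ : Fin (k + 1) → K := Fin.snoc (α := fun _ => K) t w0 with hξ
  have wθ : ∀ d : Fin (k + 1) →₀ ℕ,
      wt θ d = d (Fin.last k) - ∑ i : Fin k, (d i.castSucc : ℝ) * τ i := fun d => by
    rw [wt_last]
    simp only [hθ, Fin.snoc_castSucc, Fin.snoc_last, mul_neg, sum_neg_distrib]
    ring
  obtain ⟨D', R, h1, h2, h3, h4⟩ := iter k δ hδ hδ1 c0 Z hZ (1 / Z) ⌈2 / dl k δ⌉₊ V
    (Nat.le_ceil _) (by positivity) hV'.le F
    (by
      obtain ⟨z0, hz0, hc0⟩ := hc
      refine ne_zero_iff.2 ⟨ex z0 (κ z0), ?_⟩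
      rw [hF, coeff_sum, sum_eq_single z0]
      · simpa using hc0
      · intro z _ hz
        rw [coeff_monomial, if_neg fun e => hz (funext fun i => by
          rw [← ex_cast z (κ z) i, e, ex_cast])]
      · exact fun h => absurd hz0 h)
    θ ω ξ (fun i => by simpa [hξ] using ht i) (fun i => by simp [hω]) (by simp [hω])
    (fun i => ⟨0, lo_sum_monomial _ _ _ _ _ fun z _ => by rw [wt_single]; positivity,
      lo_sum_monomial _ _ _ _ _ fun z hz => by
        rw [wt_neg, wt_single, ex_cast, zero_add, neg_le_neg_iff]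
        exact_mod_cast hΩ z hz i⟩)
    ⟨-1, lo_sum_monomial _ _ _ _ _ fun z hz => by
        simp only [wθ, ex_cast, ex_last]
        linarith [(hκ z hz).2],
      lo_sum_monomial _ _ _ _ _ fun z hz => by
        simp only [wt_neg, wθ, ex_cast, ex_last]
        rw [one_div_mul_cancel hZ'.ne']
        linarith [(hκ z hz).1]⟩
    ((l1_sum_le _ _).trans (by simpa only [l1_monomial] using hl))
    (by
      intro d hd
      refine hV.trans ?_
      rw [wt_last]
      simp only [hω, Fin.snoc_castSucc, Fin.snoc_last, mul_one]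
      have hs : (0 : ℝ) ≤ ∑ i : Fin k, (d i.castSucc : ℝ) := by positivity
      rcases Nat.eq_zero_or_pos (d (Fin.last k)) with h0 | h0
      · by_contra! hlt
        rw [h0, Nat.cast_zero, zero_mul, add_zero] at hlt
        apply hd
        have hv := hvan (fun i => d i.castSucc) (by exact_mod_cast hlt)
        have hne : ∏ i : Fin k, t i ^ d i.castSucc ≠ 0 :=
          prod_ne_zero_iff.2 fun i _ => pow_ne_zero _ (ht i)
        refine (mul_eq_zero.1 ?_).resolve_left hne
        rw [← hv, hF, map_sum, coeff_sum, mul_sum]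
        refine sum_congr rfl fun z _ => ?_
        rw [coeff_sh_monomial, Fin.prod_univ_castSucc]
        simp only [ex_cast, ex_last, h0, hξ, Fin.snoc_castSucc, Fin.snoc_last, Nat.choose_zero_right,
          Nat.cast_one, one_mul, Nat.sub_zero]
        have : (∏ i : Fin k, t i ^ d i.castSucc) *
            ∏ i : Fin k, (((z i).choose (d i.castSucc) : K) * t i ^ (z i - d i.castSucc)) =
            (∏ i : Fin k, ((z i).choose (d i.castSucc) : K)) * ∏ i, t i ^ z i := by
          rw [← prod_mul_distrib, ← prod_mul_distrib]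
          refine prod_congr rfl fun i _ => ?_
          by_cases hi : d i.castSucc ≤ z i
          · rw [mul_left_comm, ← pow_add, Nat.add_sub_cancel' hi]
          · simp [Nat.choose_eq_zero_of_lt (not_le.1 hi)]
        linear_combination (c z : K) * w0 ^ κ z * this
      · have : (1 : ℝ) ≤ d (Fin.last k) := by exact_mod_cast h0
        nlinarith)
    (by
      intro d d' h1 h2
      obtain ⟨e1, e2⟩ := hres (fun i => (d i.castSucc : ℤ) - d' i.castSucc)
        ((d (Fin.last k) : ℤ) - d' (Fin.last k)) (fun i => by exact_mod_cast h1 i) (by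
          rw [wθ, wθ, mul_one_div, le_div_iff₀ hZ', mul_comm] at h2
          refine le_of_eq_of_le ?_ h2
          congr 2
          simp only [Int.cast_sub, Int.cast_natCast, sub_mul, sum_sub_distrib]
          ring)
      ext i
      induction i using Fin.lastCases with
      | last => omega
      | cast i =>
        have : (d i.castSucc : ℤ) - d' i.castSucc = 0 := congrFun e1 i
        omega)
  have hD' : (0 : ℝ) < D' := by exact_mod_cast h1
  obtain ⟨p, hp0, hp1, hp2⟩ := one_var R h2 w0 V (dl k δ * D') ⌈dl k δ * D' / V⌉₊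
    (fun i hi => by rwa [Nat.lt_ceil, lt_div_iff₀ hV'] at hi) (by simpa [hξ] using h4)
  refine ⟨p, _, hp0, Nat.ceil_pos.2 (by positivity), hp2,
    hp1.trans (h3.trans (Nat.pow_le_pow_right two_pos ?_))⟩
  have a1 := Nat.le_ceil (((c0 + 4 * k : ℕ) : ℝ) / dl k δ)
  have a2 := Nat.le_ceil (dl k δ * D' / V)
  rw [div_le_iff₀ hdl] at a1
  rw [div_le_iff₀ hV'] at a2
  have : (((c0 + 4 * k) * D' : ℕ) : ℝ) ≤
      ((⌈((c0 + 4 * k : ℕ) : ℝ) / dl k δ⌉₊ * V * ⌈dl k δ * D' / V⌉₊ : ℕ) : ℝ) := by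
    rw [Nat.cast_mul, Nat.cast_mul, Nat.cast_mul]
    calc _ ≤ (⌈((c0 + 4 * k : ℕ) : ℝ) / dl k δ⌉₊ : ℝ) * dl k δ * D' := by gcongr
      _ = (⌈((c0 + 4 * k : ℕ) : ℝ) / dl k δ⌉₊ : ℝ) * (dl k δ * D') := by ring
      _ ≤ (⌈((c0 + 4 * k : ℕ) : ℝ) / dl k δ⌉₊ : ℝ) * (⌈dl k δ * D' / V⌉₊ * V) := by gcongr
      _ = _ := by ring
  exact_mod_cast this

end Pool.Agent.P.MP_6e34ef_nt.Roth
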