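import Mathlib

set_option autoImplicit false

namespace Pool.Agent.P.MP_6e34ef_nt.Roth

open Polynomial Finset

variable {S : Type} [CommRing S]

theorem iter_deriv_pow (G : S[X]) (n : ℕ) (Q : S[X]) :
    ∃ T, derivative^[n] (G ^ n * Q) = (n.factorial : S[X]) * derivative G ^ n * Q + G * T := by
  induction n generalizing Q with
  | zero => exact ⟨0, by simp⟩
  | succ n ih =>
    obtain ⟨T, hT⟩ := ih ((n + 1 : ℕ) * derivative G * Q + G * derivative Q)
    refine ⟨T + (n.factorial : S[X]) * derivative G ^ n * derivative Q, ?_⟩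
    have e : derivative (G ^ (n + 1) * Q) =
        G ^ n * ((n + 1 : ℕ) * derivative G * Q + G * derivative Q) := by
      rw [derivative_mul, derivative_pow_succ]
      simp only [map_add, map_natCast, map_one]
      push_cast
      ring
    rw [Function.iterate_succ_apply, e, hT, Nat.factorial_succ]
    push_cast
    ring

variable [IsDomain S] [CharZero S]

theorem not_dvd_intCast {G : S[X]} (hG : 0 < G.natDegree) {n : ℤ} (hn : n ≠ 0) :
    ¬ G ∣ (n : S[X]) := by
  intro h
  have := natDegree_le_of_dvd h (by exact_mod_cast hn)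
  rw [natDegree_intCast] at this
  omega

theorem not_dvd_hasse {G Q : S[X]} (hp : Prime G) (hG : 0 < G.natDegree) (hQ : ¬ G ∣ Q) (n : ℕ) :
    ¬ G ∣ hasseDeriv n (G ^ n * Q) := by
  intro h
  obtain ⟨T, hT⟩ := iter_deriv_pow G n Q
  have h1 : G ∣ derivative^[n] (G ^ n * Q) := by
    rw [← factorial_smul_hasseDeriv]
    rw [LinearMap.smul_apply, nsmul_eq_mul]
    exact h.mul_left _
  rw [hT] at h1
  have h2 := (dvd_add_left (dvd_mul_right G T)).1 h1
  rcases hp.dvd_or_dvd h2 with h3 | h3
  · rcases hp.dvd_or_dvd h3 with h4 | h4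
    · exact not_dvd_intCast hG (n := n.factorial) (by exact_mod_cast n.factorial_ne_zero)
        (by exact_mod_cast h4)
    · have h5 := hp.dvd_of_dvd_pow h4
      have h6 : derivative G ≠ 0 := fun h0 => hG.ne' (natDegree_eq_zero_of_derivative_eq_zero h0)
      have := natDegree_le_of_dvd h5 h6
      have := natDegree_derivative_lt hG.ne'
      omega
  · exact hQ h3

theorem exists_lam (N : ℕ) (v : ℕ → S[X]) (r : ℕ) (s : Finset S[X]) (hs : s.card ≤ N)
    (hp : ∀ G ∈ s, Prime G ∧ 0 < G.natDegree) (hv : ∀ G ∈ s, ∃ a < r, ¬ G ∣ v a) :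
    ∃ lam : ℕ → ℕ, (∀ a, lam a ≤ N) ∧ ∀ G ∈ s, ¬ G ∣ ∑ a ∈ range r, (lam a : S[X]) * v a := by
  classical
  induction r generalizing s with
  | zero =>
    refine ⟨0, by simp, fun G hG => ?_⟩
    obtain ⟨a, ha, -⟩ := hv G hG
    omega
  | succ r ih =>
    obtain ⟨lam, hl, h⟩ := ih (s.filter fun G => ∃ a < r, ¬ G ∣ v a)
      ((card_filter_le _ _).trans hs) (fun G hG => hp G (mem_filter.1 hG).1)
      (fun G hG => (mem_filter.1 hG).2)
    have key : ∃ x ∈ range (N + 1), ∀ G ∈ s,
        ¬ G ∣ ∑ a ∈ range r, (lam a : S[X]) * v a + (x : S[X]) * v r := by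
      by_contra! hc
      choose! f hf1 hf2 using hc
      obtain ⟨x, hx, y, hy, hxy, e⟩ := exists_ne_map_eq_of_card_lt_of_maps_to
        (s := range (N + 1)) (t := s) (by rw [card_range]; omega) (f := f) hf1
      have h1 := hf2 x hx
      have h2 := hf2 y hy
      rw [← e] at h2
      obtain ⟨p1, p2⟩ := hp _ (hf1 x hx)
      have h3 : f x ∣ (((x : ℤ) - y : ℤ) : S[X]) * v r := by
        have := dvd_sub h1 h2
        convert this using 1
        push_cast
        ring
      have h4 : f x ∣ v r :=
        (p1.dvd_or_dvd h3).resolve_left (not_dvd_intCast p2 (by omega))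
      have h5 := (dvd_add_left (h4.mul_left (x : S[X]))).1 h1
      obtain ⟨a, ha, hna⟩ := hv _ (hf1 x hx)
      have har : a < r := by
        rcases Nat.lt_succ_iff_lt_or_eq.1 ha with h | rfl
        · exact h
        · exact absurd h4 hna
      exact h _ (mem_filter.2 ⟨hf1 x hx, a, har, hna⟩) h5
    obtain ⟨x, hx, hx2⟩ := key
    refine ⟨Function.update lam r x, fun a => ?_, fun G hG => ?_⟩
    · rcases eq_or_ne a r with rfl | h
      · simpa [Nat.lt_succ_iff] using hx
      · simpa [h] using hl a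
    · rw [sum_range_succ, Function.update_self]
      rw [sum_congr rfl (g := fun a => (lam a : S[X]) * v a) fun a ha => by
        rw [Function.update_of_ne (mem_range.1 ha).ne]]
      exact hx2 G hG

variable [UniqueFactorizationMonoid S]

/-- a small combination of the derivatives is coprime to `P` and to `X` -/
theorem exists_partner (P : S[X]) (h0 : P.coeff 0 ≠ 0) (D e : ℕ) (hD : P.natDegree ≤ D)
    (hm : ∀ G Q : S[X], P = G ^ (e + 1) * Q → G.natDegree = 0) :
    ∃ lam : ℕ → ℕ, (∀ a, lam a ≤ D + 1) ∧ ∀ G : S[X], Prime G → 0 < G.natDegree → G ∣ X * P →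
      ¬ G ∣ ∑ a ∈ range (e + 1), (lam a : S[X]) * (X ^ a * hasseDeriv a P) := by
  classical
  have hP : P ≠ 0 := by rintro rfl; simp at h0
  have hXP : X * P ≠ 0 := mul_ne_zero X_ne_zero hP
  set t := UniqueFactorizationMonoid.factors (X * P) with ht
  have hc : (t.toFinset.filter fun G => 0 < G.natDegree).card ≤ D + 1 := by
    have h1 : (t.map natDegree).sum = (X * P).natDegree := by
      rw [← natDegree_multiset_prod t (fun h =>
        (UniqueFactorizationMonoid.prime_of_factor _ h).ne_zero rfl)]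
      exact natDegree_eq_of_degree_eq
        (degree_eq_degree_of_associated (UniqueFactorizationMonoid.factors_prod hXP))
    rw [natDegree_X_mul hP, sum_multiset_map_count] at h1
    calc _ = ∑ G ∈ t.toFinset.filter fun G => 0 < G.natDegree, 1 := by simp
      _ ≤ ∑ G ∈ t.toFinset.filter fun G => 0 < G.natDegree, t.count G • G.natDegree :=
        sum_le_sum fun G hG => by
          obtain ⟨h2, h3⟩ := mem_filter.1 hG
          exact Nat.mul_pos (Multiset.count_pos.2 (Multiset.mem_toFinset.1 h2)) h3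
      _ ≤ ∑ G ∈ t.toFinset, t.count G • G.natDegree := sum_le_sum_of_subset (filter_subset _ _)
      _ ≤ D + 1 := by omega
  obtain ⟨lam, hl, h⟩ := exists_lam (D + 1) (fun a => X ^ a * hasseDeriv a P) (e + 1) _ hc
    (fun G hG => ⟨UniqueFactorizationMonoid.prime_of_factor _
      (Multiset.mem_toFinset.1 (mem_filter.1 hG).1), (mem_filter.1 hG).2⟩) (by
      intro G hG
      have p1 := UniqueFactorizationMonoid.prime_of_factor _
        (Multiset.mem_toFinset.1 (mem_filter.1 hG).1)
      have p2 := (mem_filter.1 hG).2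
      obtain ⟨n, Q, hQ, e1⟩ := WfDvdMonoid.max_power_factor hP p1.irreducible
      have hn : n < e + 1 := by
        by_contra! hn
        obtain ⟨k, rfl⟩ := Nat.exists_eq_add_of_le hn
        have := hm G (G ^ k * Q) (by rw [e1]; ring)
        omega
      refine ⟨n, hn, fun hd => ?_⟩
      rcases p1.dvd_or_dvd hd with h1 | h1
      · rcases Nat.eq_zero_or_pos n with rfl | hn0
        · exact p1.not_unit (isUnit_of_dvd_one (by simpa using h1))
        · have h2 : Associated G X :=
            (p1.irreducible.dvd_irreducible_iff_associated prime_X.irreducible).1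
              (p1.dvd_of_dvd_pow h1)
          apply h0
          rw [← X_dvd_iff, e1]
          exact (h2.symm.dvd.trans (dvd_pow_self G hn0.ne')).mul_right _
      · rw [e1] at h1
        exact not_dvd_hasse p1 p2 hQ n h1)
  refine ⟨lam, hl, fun G p1 p2 hd hd2 => ?_⟩
  obtain ⟨G', hG', ha⟩ := UniqueFactorizationMonoid.exists_mem_factors_of_dvd hXP p1.irreducible hd
  refine h G' (mem_filter.2 ⟨Multiset.mem_toFinset.2 hG', ?_⟩) (ha.symm.dvd.trans hd2)
  rwa [← natDegree_eq_of_degree_eq (degree_eq_degree_of_associated ha)]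

omit [CharZero S] in
theorem natDegree_le_of_dvd_mul (A B : S[X]) (hA : A ≠ 0)
    (h : ∀ G : S[X], Prime G → 0 < G.natDegree → G ∣ A → ¬ G ∣ B) (Q : S[X]) (hQ : Q ≠ 0)
    (hd : A ∣ Q * B) : A.natDegree ≤ Q.natDegree := by
  induction A using UniqueFactorizationMonoid.induction_on_prime generalizing Q with
  | h₁ => exact absurd rfl hA
  | h₂ x hx => rw [natDegree_eq_zero_of_isUnit hx]; exact Nat.zero_le _
  | h₃ a p ha hp ih =>
    have ih' := ih ha fun G p1 p2 h1 => h G p1 p2 (h1.mul_left _)
    rw [natDegree_mul hp.ne_zero ha]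
    rcases Nat.eq_zero_or_pos p.natDegree with h0 | h0
    · rw [h0, zero_add]
      exact ih' Q hQ ((dvd_mul_left a p).trans hd)
    · obtain ⟨Q1, rfl⟩ := (hp.dvd_or_dvd ((dvd_mul_right p a).trans hd)).resolve_right
        (h p hp h0 (dvd_mul_right p a))
      have hQ1 : Q1 ≠ 0 := right_ne_zero_of_mul hQ
      rw [mul_assoc] at hd
      rw [natDegree_mul hp.ne_zero hQ1]
      have := ih' Q1 hQ1 ((mul_dvd_mul_iff_left hp.ne_zero).1 hd)
      omega

omit [IsDomain S] [CharZero S] [UniqueFactorizationMonoid S] in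
/-- the rows of the Sylvester matrix -/
noncomputable def rows (D : ℕ) (A B : S[X]) : Fin (D + D) → S[X] :=
  Fin.addCases (fun i : Fin D => X ^ (i : ℕ) * A) (fun i : Fin D => X ^ (i : ℕ) * B)

omit [IsDomain S] [CharZero S] [UniqueFactorizationMonoid S] in
/-- the matrix of coefficients -/
def cm {N : ℕ} (q : Fin N → S[X]) : Matrix (Fin N) (Fin N) S := Matrix.of fun i j => (q i).coeff j

omit [IsDomain S] [CharZero S] [UniqueFactorizationMonoid S] in
theorem rows_natDegree {D : ℕ} {A B : S[X]} (hA : A.natDegree ≤ D) (hB : B.natDegree ≤ D)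
    (i : Fin (D + D)) : (rows D A B i).natDegree < D + D := by
  induction i using Fin.addCases with
  | left i =>
    rw [rows, Fin.addCases_left]
    have := (natDegree_mul_le (p := X ^ (i : ℕ)) (q := A)).trans
      (Nat.add_le_add_right (natDegree_X_pow_le i) _)
    omega
  | right i =>
    rw [rows, Fin.addCases_right]
    have := (natDegree_mul_le (p := X ^ (i : ℕ)) (q := B)).trans
      (Nat.add_le_add_right (natDegree_X_pow_le i) _)
    omega

omit [IsDomain S] [CharZero S] [UniqueFactorizationMonoid S] in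
theorem coeff_fin_sum {D : ℕ} (v : Fin D → S) (j : ℕ) :
    (∑ i : Fin D, C (v i) * X ^ (i : ℕ)).coeff j = if h : j < D then v ⟨j, h⟩ else 0 := by
  simp only [finsetSum_coeff, coeff_C_mul_X_pow]
  split_ifs with h
  · rw [sum_eq_single ⟨j, h⟩]
    · simp
    · intro b _ hb
      rw [if_neg fun e => hb (Fin.ext e.symm)]
    · simp
  · exact sum_eq_zero fun i _ => if_neg fun (e : j = i) => h (e ▸ i.2)

omit [CharZero S] in
theorem det_rows_ne_zero (D : ℕ) (A B : S[X]) (hA0 : A ≠ 0) (hA : A.natDegree = D)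
    (hB : B.natDegree ≤ D) (h : ∀ G : S[X], Prime G → 0 < G.natDegree → G ∣ A → ¬ G ∣ B) :
    (cm (rows D A B)).det ≠ 0 := by
  intro hdet
  obtain ⟨v, hv, hvM⟩ := Matrix.exists_vecMul_eq_zero_iff.2 hdet
  have h1 : ∑ i, C (v i) * rows D A B i = 0 := by
    ext j
    simp only [finsetSum_coeff, coeff_C_mul, coeff_zero]
    by_cases hj : j < D + D
    · have := congrFun hvM ⟨j, hj⟩
      simpa [Matrix.vecMul, dotProduct, cm] using this
    · exact sum_eq_zero fun i _ => by
        rw [coeff_eq_zero_of_natDegree_lt ((rows_natDegree hA.le hB i).trans_le (not_lt.1 hj)),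
          mul_zero]
  rw [Fin.sum_univ_add] at h1
  simp only [rows, Fin.addCases_left, Fin.addCases_right, ← mul_assoc, ← sum_mul] at h1
  set Pp := ∑ i : Fin D, C (v (Fin.castAdd D i)) * X ^ (i : ℕ) with hPp
  set Qp := ∑ i : Fin D, C (v (Fin.natAdd D i)) * X ^ (i : ℕ) with hQp
  have hQ : Qp = 0 := by
    by_contra hQ
    have h2 := natDegree_le_of_dvd_mul A B hA0 h Qp hQ ⟨-Pp, by linear_combination h1⟩
    have h3 : Qp.coeff Qp.natDegree = 0 := by
      rw [hQp, coeff_fin_sum, dif_neg (by rw [← hQp]; omega)]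
    exact hQ (leadingCoeff_eq_zero.1 h3)
  have hP : Pp = 0 := by
    rw [hQ, zero_mul, add_zero] at h1
    exact (mul_eq_zero.1 h1).resolve_right hA0
  apply hv
  funext i
  induction i using Fin.addCases with
  | left i =>
    have := coeff_fin_sum (fun i => v (Fin.castAdd D i)) i
    rw [← hPp, hP, dif_pos i.2] at this
    simpa using this.symm
  | right i =>
    have := coeff_fin_sum (fun i => v (Fin.natAdd D i)) i
    rw [← hQp, hQ, dif_pos i.2] at this
    simpa using this.symm

omit [IsDomain S] [CharZero S] [UniqueFactorizationMonoid S] in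
theorem det_taylor {N : ℕ} (q : Fin N → S[X]) (hq : ∀ i, (q i).natDegree < N) (t : S) :
    (cm fun i => taylor t (q i)).det = (cm q).det := by
  have e : (cm fun i => taylor t (q i)) =
      cm q * Matrix.of fun l j : Fin N => t ^ ((l : ℕ) - j) * ((l : ℕ).choose j : S) := by
    ext i j
    rw [Matrix.mul_apply]
    simp only [cm, Matrix.of_apply]
    conv_lhs => rw [as_sum_range' (q i) N (hq i)]
    rw [map_sum, finsetSum_coeff, ← Fin.sum_univ_eq_sum_range
      (fun l => (taylor t (monomial l ((q i).coeff l))).coeff j) N]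
    refine sum_congr rfl fun l _ => ?_
    rw [taylor_monomial, coeff_C_mul, coeff_X_add_C_pow]
  rw [e, Matrix.det_mul, Matrix.det_of_lowerTriangular (Matrix.of _)]
  · simp
  · intro l j hlj
    have : (l : ℕ) < j := by simpa using hlj
    simp [Nat.choose_eq_zero_of_lt this]

omit [IsDomain S] [CharZero S] [UniqueFactorizationMonoid S] in
theorem taylor_hasse (t : S) (k : ℕ) (f : S[X]) :
    taylor t (hasseDeriv k f) = hasseDeriv k (taylor t f) := by
  ext l
  have := congrArg (fun g : S[X] →ₗ[S] S[X] => g f) (hasseDeriv_comp (R := S) l k)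
  simp only [LinearMap.comp_apply, LinearMap.smul_apply] at this
  rw [taylor_coeff, this, hasseDeriv_coeff, taylor_coeff, Nat.choose_symm_add]
  simp

omit [IsDomain S] [CharZero S] [UniqueFactorizationMonoid S] in
theorem map_hasse {T : Type} [CommRing T] (g : S →+* T) (k : ℕ) (f : S[X]) :
    (hasseDeriv k f).map g = hasseDeriv k (f.map g) := by
  ext l
  simp [hasseDeriv_coeff]

omit [IsDomain S] [CharZero S] [UniqueFactorizationMonoid S] in
theorem coeff_partner (P : S[X]) (lam : ℕ → ℕ) (r i : ℕ) :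
    (∑ a ∈ range r, (lam a : S[X]) * (X ^ a * hasseDeriv a P)).coeff i =
      ((∑ a ∈ range r, lam a * i.choose a : ℕ) : S) * P.coeff i := by
  rw [finsetSum_coeff, Nat.cast_sum, sum_mul]
  refine sum_congr rfl fun a _ => ?_
  rw [coeff_natCast_mul, coeff_X_pow_mul']
  split_ifs with h
  · rw [hasseDeriv_coeff, Nat.sub_add_cancel h]
    push_cast
    ring
  · simp [Nat.choose_eq_zero_of_lt (not_le.1 h)]

theorem sum_choose_le (lam : ℕ → ℕ) (N : ℕ) (hl : ∀ a, lam a ≤ N) (r i : ℕ) :
    ∑ a ∈ range r, lam a * i.choose a ≤ N * 2 ^ i := by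
  calc _ ≤ ∑ a ∈ range r, N * i.choose a := sum_le_sum fun a _ => Nat.mul_le_mul_right _ (hl a)
    _ ≤ ∑ a ∈ range (r + (i + 1)), N * i.choose a :=
      sum_le_sum_of_subset (range_mono (by omega))
    _ = N * 2 ^ i := by
      rw [← mul_sum, ← Nat.sum_range_choose]
      congr 1
      refine (sum_subset (range_mono (by omega)) fun a _ ha => ?_).symm
      exact Nat.choose_eq_zero_of_lt (by simpa using ha)

end Pool.Agent.P.MP_6e34ef_nt.Roth
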