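import Mathlib

set_option autoImplicit false

namespace Pool.Agent.P.MP_6e34ef_nt.Roth

open MvPolynomial Finset

section Lo

variable {σ R : Type} [CommRing R]

/-- real weight of an exponent vector -/
noncomputable def wt (φ : σ → ℝ) (d : σ →₀ ℕ) : ℝ := Finsupp.weight φ d

theorem wt_add (φ : σ → ℝ) (d d' : σ →₀ ℕ) : wt φ (d + d') = wt φ d + wt φ d' := map_add _ _ _

theorem wt_zero (φ : σ → ℝ) : wt φ 0 = 0 := map_zero _

theorem wt_eq_sum [Fintype σ] (φ : σ → ℝ) (d : σ →₀ ℕ) : wt φ d = ∑ i, (d i : ℝ) * φ i := by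
  simp [wt, Finsupp.weight_eq_sum]

theorem wt_neg (φ : σ → ℝ) (d : σ →₀ ℕ) : wt (-φ) d = -wt φ d := by
  simp [wt, Finsupp.weight_apply, Finsupp.sum]

theorem wt_nonneg {φ : σ → ℝ} (h : ∀ i, 0 ≤ φ i) (d : σ →₀ ℕ) : 0 ≤ wt φ d := by
  simp only [wt, Finsupp.weight_apply, Finsupp.sum]
  exact sum_nonneg fun i _ => nsmul_nonneg (h i) _

theorem wt_cons {n : ℕ} (φ : Fin (n + 1) → ℝ) (i : ℕ) (d : Fin n →₀ ℕ) :
    wt φ (d.cons i) = i * φ 0 + wt (Fin.tail φ) d := by
  simp [wt_eq_sum, Fin.sum_univ_succ, Fin.tail]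

/-- all monomials have weight at least `a` -/
def Lo (φ : σ → ℝ) (a : ℝ) (A : MvPolynomial σ R) : Prop := ∀ d, coeff d A ≠ 0 → a ≤ wt φ d

namespace Lo

variable {φ : σ → ℝ} {a b : ℝ} {A B : MvPolynomial σ R}

theorem zero : Lo φ a (0 : MvPolynomial σ R) := fun _ h => absurd (coeff_zero _) h

theorem mono (h : Lo φ a A) (hb : b ≤ a) : Lo φ b A := fun d hd => hb.trans (h d hd)

theorem add (h : Lo φ a A) (h' : Lo φ a B) : Lo φ a (A + B) := by
  intro d hd
  by_cases h1 : coeff d A = 0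
  · exact h' d (by simpa [h1] using hd)
  · exact h d h1

theorem neg (h : Lo φ a A) : Lo φ a (-A) := fun d hd => h d (by simpa using hd)

theorem sub (h : Lo φ a A) (h' : Lo φ a B) : Lo φ a (A - B) := by
  rw [sub_eq_add_neg]; exact h.add h'.neg

theorem mul (h : Lo φ a A) (h' : Lo φ b B) : Lo φ (a + b) (A * B) := by
  classical
  intro d hd
  rw [coeff_mul] at hd
  obtain ⟨x, hx, h0⟩ := exists_ne_zero_of_sum_ne_zero hd
  rw [← mem_antidiagonal.1 hx, wt_add]
  exact add_le_add (h _ (left_ne_zero_of_mul h0)) (h' _ (right_ne_zero_of_mul h0))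

theorem C (r : R) : Lo φ 0 (MvPolynomial.C r : MvPolynomial σ R) := by
  classical
  intro d hd
  rw [coeff_C] at hd
  split_ifs at hd with h
  · rw [← h, wt_zero]
  · exact absurd rfl hd

theorem one : Lo φ 0 (1 : MvPolynomial σ R) := by simpa using Lo.C (φ := φ) (1 : R)

theorem natCast_mul (h : Lo φ a A) (n : ℕ) : Lo φ a ((n : MvPolynomial σ R) * A) := by
  have := (Lo.C (φ := φ) (n : R)).mul h
  simpa using this

theorem intCast_mul (h : Lo φ a A) (n : ℤ) : Lo φ a ((n : MvPolynomial σ R) * A) := by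
  have := (Lo.C (φ := φ) (n : R)).mul h
  simpa using this

theorem sum {ι : Type} (s : Finset ι) (f : ι → MvPolynomial σ R) (h : ∀ i ∈ s, Lo φ a (f i)) :
    Lo φ a (∑ i ∈ s, f i) :=
  sum_induction f (Lo φ a) (fun _ _ => Lo.add) Lo.zero h

theorem prod {ι : Type} (s : Finset ι) (f : ι → MvPolynomial σ R) (c : ι → ℝ)
    (h : ∀ i ∈ s, Lo φ (c i) (f i)) : Lo φ (∑ i ∈ s, c i) (∏ i ∈ s, f i) := by
  classical
  induction s using Finset.induction_on with
  | empty => simpa using Lo.one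
  | insert i s hi ih =>
    rw [sum_insert hi, prod_insert hi]
    exact (h i (mem_insert_self _ _)).mul (ih fun j hj => h j (mem_insert_of_mem hj))

theorem of_nonneg (hφ : ∀ i, 0 ≤ φ i) (A : MvPolynomial σ R) : Lo φ 0 A :=
  fun d _ => wt_nonneg hφ d

theorem max0 (hφ : ∀ i, 0 ≤ φ i) (h : Lo φ a A) : Lo φ (max a 0) A :=
  fun d hd => max_le (h d hd) (wt_nonneg hφ d)

theorem det {ι : Type} [Fintype ι] [DecidableEq ι] (M : Matrix ι ι (MvPolynomial σ R))
    (r c : ι → ℝ) (h : ∀ i j, Lo φ (r i + c j) (M i j)) :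
    Lo φ (∑ i, r i + ∑ j, c j) M.det := by
  rw [Matrix.det_apply']
  refine Lo.sum _ _ fun π _ => Lo.intCast_mul ?_ _
  have := Lo.prod univ (fun i => M (π i) i) (fun i => r (π i) + c i) fun i _ => h _ _
  rwa [sum_add_distrib, Equiv.sum_comp π r] at this

theorem of_C_mul {K : Type} [Field K] {A : MvPolynomial σ K} {t : K} (ht : t ≠ 0)
    (h : Lo φ a (MvPolynomial.C t * A)) : Lo φ a A :=
  fun d hd => h d (by rw [coeff_C_mul]; exact mul_ne_zero ht hd)

end Lo

theorem exists_min_wt (φ : σ → ℝ) {A : MvPolynomial σ R} (hA : A ≠ 0) :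
    ∃ d, coeff d A ≠ 0 ∧ Lo φ (wt φ d) A := by
  obtain ⟨d, hd, h⟩ := exists_min_image A.support (wt φ) (support_nonempty.2 hA)
  exact ⟨d, mem_support_iff.1 hd, fun d' hd' => h d' (mem_support_iff.2 hd')⟩

theorem exists_le_mul [IsDomain R] (φ : σ → ℝ) {A B : MvPolynomial σ R} {p q : σ →₀ ℕ}
    (hp : coeff p A ≠ 0) (hq : coeff q B ≠ 0) :
    ∃ d, coeff d (A * B) ≠ 0 ∧ wt φ d ≤ wt φ p + wt φ q := by
  classical
  have hA : A ≠ 0 := by rintro rfl; exact hp (coeff_zero _)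
  have hB : B ≠ 0 := by rintro rfl; exact hq (coeff_zero _)
  obtain ⟨p0, hp0, hlA⟩ := exists_min_wt φ hA
  obtain ⟨q0, hq0, hlB⟩ := exists_min_wt φ hB
  set A0 := weightedHomogeneousComponent φ (wt φ p0) A with hA0
  set B0 := weightedHomogeneousComponent φ (wt φ q0) B with hB0
  have cA : ∀ d, coeff d A0 = if wt φ d = wt φ p0 then coeff d A else 0 := fun d =>
    coeff_weightedHomogeneousComponent _ _ _
  have cB : ∀ d, coeff d B0 = if wt φ d = wt φ q0 then coeff d B else 0 := fun d =>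
    coeff_weightedHomogeneousComponent _ _ _
  have nA : A0 ≠ 0 := fun h => hp0 (by have := cA p0; rw [h] at this; simpa using this.symm)
  have nB : B0 ≠ 0 := fun h => hq0 (by have := cB q0; rw [h] at this; simpa using this.symm)
  obtain ⟨d, hd⟩ := ne_zero_iff.1 (mul_ne_zero nA nB)
  have hw : wt φ d = wt φ p0 + wt φ q0 :=
    ((weightedHomogeneousComponent_isWeightedHomogeneous _ _).mul
      (weightedHomogeneousComponent_isWeightedHomogeneous _ _)) hd
  refine ⟨d, ?_, hw.le.trans (add_le_add (hlA p hp) (hlB q hq))⟩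
  have : coeff d (A * B) = coeff d (A0 * B0) := by
    rw [coeff_mul, coeff_mul]
    refine sum_congr rfl fun x hx => ?_
    have e := mem_antidiagonal.1 hx
    by_cases h1 : coeff x.1 A = 0
    · simp [cA, h1]
    by_cases h2 : coeff x.2 B = 0
    · simp [cB, h2]
    have l1 := hlA _ h1
    have l2 := hlB _ h2
    rw [← e, wt_add] at hw
    rw [cA, cB, if_pos (by linarith), if_pos (by linarith)]
  rwa [this]

theorem exists_le_pow [IsDomain R] (φ : σ → ℝ) {G : MvPolynomial σ R} {g : σ →₀ ℕ}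
    (hg : coeff g G ≠ 0) (n : ℕ) : ∃ d, coeff d (G ^ n) ≠ 0 ∧ wt φ d ≤ n * wt φ g := by
  induction n with
  | zero => exact ⟨0, by simp, by simp [wt_zero]⟩
  | succ n ih =>
    obtain ⟨d, hd, h⟩ := ih
    obtain ⟨d', hd', h'⟩ := exists_le_mul φ hd hg
    refine ⟨d', by rwa [pow_succ], ?_⟩
    push_cast
    linarith

/-- the weights of the monomials lie in an interval of length `s` -/
def Wd (φ : σ → ℝ) (s : ℝ) (A : MvPolynomial σ R) : Prop :=
  ∃ a, Lo φ a A ∧ Lo (-φ) (-(a + s)) A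

theorem Wd.mono {φ : σ → ℝ} {s s' : ℝ} {A : MvPolynomial σ R} (h : Wd φ s A) (hs : s ≤ s') :
    Wd φ s' A := by
  obtain ⟨a, h1, h2⟩ := h
  exact ⟨a, h1, h2.mono (by linarith)⟩

theorem Wd.of_pow [IsDomain R] {φ : σ → ℝ} {s : ℝ} {G Q : MvPolynomial σ R} {n : ℕ}
    (hQ : Q ≠ 0) (h : Wd φ s (G ^ n * Q)) {d d' : σ →₀ ℕ} (hd : coeff d G ≠ 0)
    (hd' : coeff d' G ≠ 0) : n * (wt φ d - wt φ d') ≤ s := by
  obtain ⟨a, h1, h2⟩ := h
  obtain ⟨q, hq⟩ := ne_zero_iff.1 hQ
  obtain ⟨x, hx, lx⟩ := exists_le_pow φ hd' n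
  obtain ⟨y, hy, ly⟩ := exists_le_mul φ hx hq
  obtain ⟨x', hx', lx'⟩ := exists_le_pow (-φ) hd n
  obtain ⟨y', hy', ly'⟩ := exists_le_mul (-φ) hx' hq
  have e1 := h1 y hy
  have e2 := h2 y' hy'
  simp only [wt_neg] at *
  nlinarith

end Lo

section L1

variable {σ : Type}

/-- sum of the absolute values of the coefficients -/
noncomputable def l1 (A : MvPolynomial σ ℤ) : ℕ := ∑ d ∈ A.support, (coeff d A).natAbs

theorem l1_eq_sum (A : MvPolynomial σ ℤ) {s : Finset (σ →₀ ℕ)} (hs : A.support ⊆ s) :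
    l1 A = ∑ d ∈ s, (coeff d A).natAbs :=
  sum_subset hs fun d _ hd => by simpa using hd

theorem l1_zero : l1 (0 : MvPolynomial σ ℤ) = 0 := by simp [l1]

theorem l1_add_le (A B : MvPolynomial σ ℤ) : l1 (A + B) ≤ l1 A + l1 B := by
  classical
  rw [l1_eq_sum (A + B) support_add, l1_eq_sum A subset_union_left,
    l1_eq_sum B subset_union_right, ← sum_add_distrib]
  exact sum_le_sum fun d _ => by rw [coeff_add]; exact Int.natAbs_add_le _ _

theorem l1_sum_le {ι : Type} (s : Finset ι) (f : ι → MvPolynomial σ ℤ) :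
    l1 (∑ i ∈ s, f i) ≤ ∑ i ∈ s, l1 (f i) :=
  le_sum_of_subadditive l1 l1_zero.le l1_add_le s f

theorem l1_monomial (d : σ →₀ ℕ) (c : ℤ) : l1 (monomial d c) = c.natAbs := by
  classical
  rw [l1_eq_sum _ support_monomial_subset]
  simp

theorem l1_mul_le (A B : MvPolynomial σ ℤ) : l1 (A * B) ≤ l1 A * l1 B := by
  classical
  conv_lhs => rw [A.as_sum, B.as_sum, sum_mul_sum]
  refine (l1_sum_le _ _).trans ?_
  rw [l1, l1, sum_mul_sum]
  refine sum_le_sum fun a _ => (l1_sum_le _ _).trans (sum_le_sum fun b _ => ?_)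
  rw [monomial_mul, l1_monomial, Int.natAbs_mul]

theorem l1_intCast (n : ℤ) : l1 (n : MvPolynomial σ ℤ) = n.natAbs := by
  have := l1_monomial (0 : σ →₀ ℕ) n
  simpa using this

theorem l1_natCast (n : ℕ) : l1 (n : MvPolynomial σ ℤ) = n := by
  simpa using l1_intCast (σ := σ) (n : ℤ)

theorem l1_prod_le {ι : Type} (s : Finset ι) (f : ι → MvPolynomial σ ℤ) (b : ℕ)
    (h : ∀ i ∈ s, l1 (f i) ≤ b) : l1 (∏ i ∈ s, f i) ≤ b ^ s.card := by
  classical
  induction s using Finset.induction_on with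
  | empty => simpa using (l1_natCast (σ := σ) 1).le
  | insert i s hi ih =>
    rw [prod_insert hi, card_insert_of_notMem hi, pow_succ']
    exact (l1_mul_le _ _).trans (Nat.mul_le_mul (h i (mem_insert_self _ _))
      (ih fun j hj => h j (mem_insert_of_mem hj)))

theorem l1_det_le {N : ℕ} (M : Matrix (Fin N) (Fin N) (MvPolynomial σ ℤ)) (b : ℕ)
    (h : ∀ i j, l1 (M i j) ≤ b) : l1 M.det ≤ (2 ^ N * b) ^ N := by
  rw [Matrix.det_apply']
  refine (l1_sum_le _ _).trans ?_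
  have : ∀ π : Equiv.Perm (Fin N),
      l1 (((Equiv.Perm.sign π : ℤ) : MvPolynomial σ ℤ) * ∏ i, M (π i) i) ≤ b ^ N := by
    intro π
    refine (l1_mul_le _ _).trans ?_
    rw [l1_intCast, Int.units_natAbs, one_mul]
    simpa using l1_prod_le univ (fun i => M (π i) i) b fun i _ => h _ _
  refine (sum_le_sum fun π _ => this π).trans ?_
  rw [sum_const, card_univ, Fintype.card_perm, Fintype.card_fin, smul_eq_mul, mul_pow]
  refine Nat.mul_le_mul_right _ ((Nat.factorial_le_pow N).trans ?_)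
  exact Nat.pow_le_pow_left Nat.lt_two_pow_self.le _

theorem natAbs_coeff_le_l1 (A : MvPolynomial σ ℤ) (d : σ →₀ ℕ) : (coeff d A).natAbs ≤ l1 A := by
  by_cases h : coeff d A = 0
  · simp [h]
  · exact single_le_sum (f := fun d => (coeff d A).natAbs) (fun _ _ => Nat.zero_le _)
      (mem_support_iff.2 h)

theorem l1_coeff_le {n : ℕ} (A : MvPolynomial (Fin (n + 1)) ℤ) (i : ℕ) :
    l1 ((finSuccEquiv ℤ n A).coeff i) ≤ l1 A := by
  classical
  rw [l1, l1]
  simp only [finSuccEquiv_coeff_coeff]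
  rw [← sum_image (f := fun d => (coeff d A).natAbs) (g := fun d : Fin n →₀ ℕ => d.cons i)
    (fun x _ y _ h => Finsupp.cons_right_injective i h)]
  refine sum_le_sum_of_subset fun d hd => ?_
  obtain ⟨x, hx, rfl⟩ := mem_image.1 hd
  exact mem_support_coeff_finSuccEquiv.1 hx

end L1

end Pool.Agent.P.MP_6e34ef_nt.Roth
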