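import Pool.Agent.P.MP_6e34ef_nt.Roth.Lo
import Pool.Agent.P.MP_6e34ef_nt.Roth.Alg

set_option autoImplicit false

namespace Pool.Agent.P.MP_6e34ef_nt.Roth

open Polynomial Finset

section PB

variable {σ R : Type} [CommRing R]

/-- weight bound for a polynomial in one more variable of weight `f` -/
def PB (f : ℝ) (φ : σ → ℝ) (a : ℝ) (P : (MvPolynomial σ R)[X]) : Prop :=
  ∀ i : ℕ, Lo φ (a - i * f) (P.coeff i)

theorem pb_iff {n : ℕ} (φ : Fin (n + 1) → ℝ) (a : ℝ) (A : MvPolynomial (Fin (n + 1)) R) :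
    Lo φ a A ↔ PB (φ 0) (Fin.tail φ) a (MvPolynomial.finSuccEquiv R n A) := by
  constructor
  · intro h i d hd
    rw [MvPolynomial.finSuccEquiv_coeff_coeff] at hd
    have := h _ hd
    rw [wt_cons] at this
    linarith
  · intro h d hd
    rw [← Finsupp.cons_tail d] at hd ⊢
    rw [← MvPolynomial.finSuccEquiv_coeff_coeff] at hd
    have := h _ _ hd
    rw [wt_cons]
    linarith

namespace PB

variable {f a b : ℝ} {φ : σ → ℝ} {P : (MvPolynomial σ R)[X]}

theorem mono (h : PB f φ a P) (hb : b ≤ a) : PB f φ b P := fun i => (h i).mono (by linarith)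

theorem X_pow_mul (h : PB f φ a P) (k : ℕ) : PB f φ (a + k * f) (X ^ k * P) := by
  intro i
  rw [coeff_X_pow_mul']
  split_ifs with hk
  · refine (h (i - k)).mono (le_of_eq ?_)
    rw [Nat.cast_sub hk]
    ring
  · exact Lo.zero

theorem of_X_pow_mul {k : ℕ} (h : PB f φ a (X ^ k * P)) : PB f φ (a - k * f) P := by
  intro i
  have := h (i + k)
  rw [coeff_X_pow_mul] at this
  refine this.mono (le_of_eq ?_)
  push_cast
  ring

theorem partner (h : PB f φ a P) (lam : ℕ → ℕ) (r : ℕ) :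
    PB f φ a (∑ a ∈ range r, (lam a : (MvPolynomial σ R)[X]) * (X ^ a * hasseDeriv a P)) := by
  intro i
  rw [coeff_partner]
  exact (h i).natCast_mul _

theorem mul_any (hφ : ∀ i, 0 ≤ φ i) (h : PB 1 φ a P) (Q : (MvPolynomial σ R)[X]) :
    PB 1 φ a (Q * P) := by
  intro i
  rw [coeff_mul]
  refine Lo.sum _ _ fun x hx => ((Lo.of_nonneg hφ _).mul (h x.2)).mono ?_
  have : x.2 ≤ i := by have := mem_antidiagonal.1 hx; omega
  have : (x.2 : ℝ) ≤ i := by exact_mod_cast this
  linarith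

theorem hasse (h : PB 1 φ a P) (k : ℕ) : PB 1 φ (a - k) (hasseDeriv k P) := by
  intro i
  rw [hasseDeriv_coeff]
  refine ((h (i + k)).natCast_mul _).mono (le_of_eq ?_)
  push_cast
  ring

theorem sum {ι : Type} (s : Finset ι) (g : ι → (MvPolynomial σ R)[X])
    (h : ∀ i ∈ s, PB f φ a (g i)) : PB f φ a (∑ i ∈ s, g i) := by
  intro l
  rw [finsetSum_coeff]
  exact Lo.sum _ _ fun i hi => h i hi l

theorem of_lin {K : Type} [Field K] {P : (MvPolynomial σ K)[X]} {t : K} (ht : t ≠ 0)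
    (h : PB 1 φ a ((X + C (MvPolynomial.C t)) * P)) : PB 1 φ a P := by
  intro i
  induction i with
  | zero =>
    have := h 0
    rw [add_mul, coeff_add, coeff_C_mul, coeff_X_mul_zero, zero_add] at this
    exact this.of_C_mul ht
  | succ i ih =>
    have h1 := h (i + 1)
    rw [add_mul, coeff_add, coeff_C_mul, coeff_X_mul] at h1
    have h2 := h1.sub (ih.mono (by push_cast; linarith))
    rw [add_sub_cancel_left] at h2
    exact h2.of_C_mul ht

theorem of_lin_pow {K : Type} [Field K] {P : (MvPolynomial σ K)[X]} {t : K} (ht : t ≠ 0) (k : ℕ)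
    (h : PB 1 φ a ((X + C (MvPolynomial.C t)) ^ k * P)) : PB 1 φ a P := by
  induction k with
  | zero => simpa using h
  | succ k ih => exact ih (of_lin ht (by rwa [pow_succ', mul_assoc] at h))

end PB

theorem lo_det_rows {f a b : ℝ} {φ : σ → ℝ} {A B : (MvPolynomial σ R)[X]} (D : ℕ)
    (hA : PB f φ a A) (hB : PB f φ b B) :
    Lo φ (D * a + D * b + (2 * ∑ i : Fin D, (i : ℝ) - ∑ j : Fin (D + D), (j : ℝ)) * f)
      (cm (rows D A B)).det := by
  have := Lo.det (φ := φ) (cm (rows D A B))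
    (Fin.addCases (fun i : Fin D => a + (i : ℕ) * f) (fun i : Fin D => b + (i : ℕ) * f))
    (fun j => -((j : ℕ) * f)) (by
      intro i j
      induction i using Fin.addCases with
      | left i =>
        simp only [cm, rows, Matrix.of_apply, Fin.addCases_left]
        exact (hA.X_pow_mul i j).mono (by linarith)
      | right i =>
        simp only [cm, rows, Matrix.of_apply, Fin.addCases_right]
        exact (hB.X_pow_mul i j).mono (by linarith))
  refine this.mono (le_of_eq ?_)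
  rw [Fin.sum_univ_add (f := Fin.addCases _ _)]
  simp only [Fin.addCases_left, Fin.addCases_right, sum_add_distrib, sum_const, card_univ,
    Fintype.card_fin, nsmul_eq_mul, sum_neg_distrib, ← sum_mul]
  ring

theorem sum_max_ge (N : ℕ) (μ : ℝ) (h0 : 0 ≤ μ) (h : μ ≤ N) :
    μ ^ 2 / 2 ≤ ∑ l ∈ range N, max (μ - l) 0 := by
  induction N generalizing μ with
  | zero =>
    have : μ = 0 := le_antisymm (by simpa using h) h0
    simp [this]
  | succ N ih =>
    rw [sum_range_succ']
    simp only [Nat.cast_zero, sub_zero, max_eq_left h0]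
    rcases le_total 1 μ with h1 | h1
    · have := ih (μ - 1) (by linarith) (by push_cast at h; linarith)
      have e : ∑ l ∈ range N, max (μ - ((l + 1 : ℕ) : ℝ)) 0 = ∑ l ∈ range N, max (μ - 1 - l) 0 :=
        sum_congr rfl fun l _ => by push_cast; ring_nf
      rw [e]
      nlinarith
    · have : 0 ≤ ∑ l ∈ range N, max (μ - ((l + 1 : ℕ) : ℝ)) 0 :=
        sum_nonneg fun l _ => le_max_right _ _
      nlinarith

end PB

section Shift

variable {K : Type} [Field K]

/-- expansion of an integer polynomial at the point `ξ` -/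
noncomputable def sh {σ : Type} (ξ : σ → K) : MvPolynomial σ ℤ →+* MvPolynomial σ K :=
  MvPolynomial.eval₂Hom (Int.castRingHom _) fun i => MvPolynomial.X i + MvPolynomial.C (ξ i)

/-- the same with one variable singled out -/
noncomputable def psi {σ : Type} (t : K) (ξ : σ → K) :
    (MvPolynomial σ ℤ)[X] →+* (MvPolynomial σ K)[X] :=
  (taylorAlgHom (MvPolynomial.C t)).toRingHom.comp (mapRingHom (sh ξ))

theorem psi_apply {σ : Type} (t : K) (ξ : σ → K) (P : (MvPolynomial σ ℤ)[X]) :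
    psi t ξ P = taylor (MvPolynomial.C t) (P.map (sh ξ)) := rfl

theorem psi_X {σ : Type} (t : K) (ξ : σ → K) : psi t ξ X = X + C (MvPolynomial.C t) := by
  simp [psi_apply]

theorem psi_hasse {σ : Type} (t : K) (ξ : σ → K) (k : ℕ) (P : (MvPolynomial σ ℤ)[X]) :
    psi t ξ (hasseDeriv k P) = hasseDeriv k (psi t ξ P) := by
  rw [psi_apply, psi_apply, map_hasse, taylor_hasse]

theorem finSucc_sh {n : ℕ} (ξ : Fin (n + 1) → K) (A : MvPolynomial (Fin (n + 1)) ℤ) :
    MvPolynomial.finSuccEquiv K n (sh ξ A) =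
      psi (ξ 0) (Fin.tail ξ) (MvPolynomial.finSuccEquiv ℤ n A) := by
  have : (MvPolynomial.finSuccEquiv K n).toRingEquiv.toRingHom.comp (sh ξ) =
      (psi (ξ 0) (Fin.tail ξ)).comp (MvPolynomial.finSuccEquiv ℤ n).toRingEquiv.toRingHom := by
    apply MvPolynomial.ringHom_ext
    · intro r
      simp
    · intro i
      have hC : ∀ x : K, MvPolynomial.finSuccEquiv K n (MvPolynomial.C x) =
          C (MvPolynomial.C x) := fun x => by simp [MvPolynomial.finSuccEquiv_apply]
      refine Fin.cases ?_ (fun j => ?_) i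
      · simp [sh, MvPolynomial.finSuccEquiv_X_zero, psi_X, hC]
      · simp [sh, MvPolynomial.finSuccEquiv_X_succ, psi_apply, hC, Fin.tail]
  exact RingHom.congr_fun this A

theorem lo_det_nu {σ : Type} {ω : σ → ℝ} (hω : ∀ i, 0 ≤ ω i) (t : K) (ξ : σ → K) {D : ℕ}
    {A B : (MvPolynomial σ ℤ)[X]} (hA : A.natDegree ≤ D) (hB : B.natDegree ≤ D) {μ : ℝ}
    (h0 : 0 ≤ μ) (hμ : μ ≤ D) (nA : PB 1 ω μ (psi t ξ A)) (nB : PB 1 ω μ (psi t ξ B)) :
    Lo ω (μ ^ 2 / 2) (sh ξ (cm (rows D A B)).det) := by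
  have e1 : (sh ξ).mapMatrix (cm (rows D A B)) = cm fun i => (rows D A B i).map (sh ξ) := by
    ext i j : 2
    simp [cm]
  rw [RingHom.map_det, e1, ← det_taylor _ (fun i => natDegree_map_le.trans_lt
    (rows_natDegree hA hB i)) (MvPolynomial.C t)]
  have hr : ∀ i, PB 1 ω μ (psi t ξ (rows D A B i)) := by
    intro i
    induction i using Fin.addCases with
    | left i => rw [rows, Fin.addCases_left, map_mul]; exact nA.mul_any hω _
    | right i => rw [rows, Fin.addCases_right, map_mul]; exact nB.mul_any hω _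
  have := Lo.det (φ := ω) (cm fun i => psi t ξ (rows D A B i)) (fun _ => 0)
    (fun j => max (μ - (j : ℕ)) 0) (by
      intro i j
      have := (hr i j).max0 hω
      simpa [cm] using this)
  refine this.mono ?_
  rw [sum_const_zero, zero_add, Fin.sum_univ_eq_sum_range (fun l => max (μ - (l : ℕ)) 0)]
  refine sum_max_ge _ _ h0 (hμ.trans ?_)
  push_cast
  linarith [(Nat.cast_nonneg D : (0 : ℝ) ≤ D)]

/-- elimination of one variable -/
theorem step {n : ℕ} (A : MvPolynomial (Fin (n + 1)) ℤ) (hA : A ≠ 0) (D h e : ℕ)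
    (ξ : Fin (n + 1) → K) (hξ : ξ 0 ≠ 0) (ω : Fin (n + 1) → ℝ) (hω0 : ω 0 = 1)
    (hω : ∀ i, 0 ≤ ω i) (m : ℝ) (hem : (e : ℝ) ≤ m) (hmD : m ≤ D)
    (hD : Wd (Pi.single 0 1) D A) (hl : l1 A ≤ 2 ^ h) (hν : Lo ω m (sh ξ A))
    (hm : ∀ G Q : MvPolynomial (Fin (n + 1)) ℤ, A = G ^ (e + 1) * Q → ∀ d d',
      MvPolynomial.coeff d G ≠ 0 → MvPolynomial.coeff d' G ≠ 0 → d = d') :
    ∃ R : MvPolynomial (Fin n) ℤ, R ≠ 0 ∧
      (∀ (φ : Fin (n + 1) → ℝ) (s : ℝ), Wd φ s A → Wd (Fin.tail φ) (2 * D * s) R) ∧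
      l1 R ≤ 2 ^ (2 * D * (h + 4 * D)) ∧
      Lo (Fin.tail ω) ((m - e) ^ 2 / 2) (sh (Fin.tail ξ) R) := by
  classical
  set E := MvPolynomial.finSuccEquiv ℤ n with hE
  have hP : E A ≠ 0 := by simpa using hA
  obtain ⟨P, hP1, hP2⟩ := exists_eq_pow_rootMultiplicity_mul_and_not_dvd (E A) hP 0
  generalize rootMultiplicity 0 (E A) = o at hP1
  simp only [map_zero, sub_zero, X_dvd_iff] at hP1 hP2
  have hP0 : P ≠ 0 := by rintro rfl; simp at hP2
  have hco : ∀ i, P.coeff i = (E A).coeff (i + o) := fun i => by rw [hP1, coeff_X_pow_mul]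
  have hPD : P.natDegree ≤ D := by
    obtain ⟨a, h1, h2⟩ := hD
    obtain ⟨d, hd⟩ := MvPolynomial.ne_zero_iff.1 hP2
    obtain ⟨d', hd'⟩ := MvPolynomial.ne_zero_iff.1 (leadingCoeff_ne_zero.2 hP0)
    rw [leadingCoeff] at hd'
    rw [hco, hE, MvPolynomial.finSuccEquiv_coeff_coeff] at hd hd'
    have e1 := h1 _ hd
    have e2 := h2 _ hd'
    rw [wt_neg] at e2
    simp only [wt, Finsupp.weight_single_index, Finsupp.cons_zero, nsmul_eq_mul, mul_one] at e1 e2
    push_cast at e1 e2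
    have : (P.natDegree : ℝ) ≤ D := by linarith
    exact_mod_cast this
  obtain ⟨lam, hlam, hcop⟩ := exists_partner P hP2 D e hPD (by
    intro G Q hGQ
    have hG : G.coeff 0 ≠ 0 := by
      intro h0
      apply hP2
      rw [← X_dvd_iff] at h0 ⊢
      rw [hGQ]
      exact (h0.trans (dvd_pow_self G (Nat.succ_ne_zero e))).mul_right _
    have hG0 : G ≠ 0 := by rintro rfl; simp at hG
    obtain ⟨d, hd⟩ := MvPolynomial.ne_zero_iff.1 hG
    obtain ⟨d', hd'⟩ := MvPolynomial.ne_zero_iff.1 (leadingCoeff_ne_zero.2 hG0)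
    rw [leadingCoeff] at hd'
    have := hm (E.symm G) (E.symm (X ^ o * Q)) (by
      apply E.injective
      rw [map_mul, map_pow, E.apply_symm_apply, E.apply_symm_apply, hP1, hGQ]
      ring) (d.cons 0) (d'.cons G.natDegree)
      (by rwa [← MvPolynomial.finSuccEquiv_coeff_coeff, ← hE, E.apply_symm_apply])
      (by rwa [← MvPolynomial.finSuccEquiv_coeff_coeff, ← hE, E.apply_symm_apply])
    have := congrArg (fun x => x 0) this
    simpa using this.symm)
  set B := ∑ a ∈ range (e + 1), (lam a : (MvPolynomial (Fin n) ℤ)[X]) * (X ^ a * hasseDeriv a P)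
    with hB
  have hBc : ∀ i, B.coeff i =
      ((∑ a ∈ range (e + 1), lam a * i.choose a : ℕ) : MvPolynomial (Fin n) ℤ) * P.coeff i :=
    fun i => coeff_partner P lam _ i
  have hBD : B.natDegree ≤ D := by
    rw [natDegree_le_iff_coeff_eq_zero]
    intro i hi
    rw [hBc, coeff_eq_zero_of_natDegree_lt (hPD.trans_lt hi), mul_zero]
  set k := D - P.natDegree with hk
  have hA'D : (X ^ k * P).natDegree = D := by
    rw [natDegree_X_pow_mul k hP0]; omega
  have lP : ∀ i, l1 (P.coeff i) ≤ 2 ^ h := fun i => by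
    rw [hco]; exact (l1_coeff_le A _).trans hl
  have lB : ∀ i, l1 (B.coeff i) ≤ 2 ^ (2 * D) * 2 ^ h := fun i => by
    by_cases hi : i ≤ D
    · rw [hBc]
      refine (l1_mul_le _ _).trans (Nat.mul_le_mul ?_ (lP i))
      rw [l1_natCast, two_mul, pow_add]
      exact (sum_choose_le lam _ hlam _ i).trans
        (Nat.mul_le_mul Nat.lt_two_pow_self (Nat.pow_le_pow_right two_pos hi))
    · rw [coeff_eq_zero_of_natDegree_lt (by omega), l1_zero]
      exact Nat.zero_le _
  have lX : ∀ (Q : (MvPolynomial (Fin n) ℤ)[X]) (b : ℕ), (∀ i, l1 (Q.coeff i) ≤ b) →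
      ∀ j i, l1 ((X ^ j * Q).coeff i) ≤ b := by
    intro Q b hQ j i
    rw [coeff_X_pow_mul']
    split_ifs
    · exact hQ _
    · rw [l1_zero]; exact Nat.zero_le _
  refine ⟨(cm (rows D (X ^ k * P) B)).det, ?_, ?_, ?_, ?_⟩
  · refine det_rows_ne_zero D _ _ (mul_ne_zero (pow_ne_zero _ X_ne_zero) hP0) hA'D hBD
      fun G p1 p2 hd => hcop G p1 p2 ?_
    rcases p1.dvd_or_dvd hd with h1 | h1
    · exact (p1.dvd_of_dvd_pow h1).mul_right _
    · exact h1.mul_left _
  · rintro φ s ⟨a, h1, h2⟩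
    rw [pb_iff, ← hE, hP1] at h1 h2
    have l1' := lo_det_rows D (h1.of_X_pow_mul.X_pow_mul k) (h1.of_X_pow_mul.partner lam (e + 1))
    have l2' := lo_det_rows D (h2.of_X_pow_mul.X_pow_mul k) (h2.of_X_pow_mul.partner lam (e + 1))
    refine ⟨_, l1', l2'.mono (le_of_eq ?_)⟩
    simp only [Pi.neg_apply]
    ring
  · refine (l1_det_le _ (2 ^ (2 * D) * 2 ^ h) ?_).trans (le_of_eq ?_)
    · intro i j
      induction i using Fin.addCases with
      | left i =>
        simp only [cm, rows, Matrix.of_apply, Fin.addCases_left]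
        exact lX _ _ (lX _ _ (fun i => (lP i).trans
          (Nat.le_mul_of_pos_left _ (by positivity))) k) _ _
      | right i =>
        simp only [cm, rows, Matrix.of_apply, Fin.addCases_right]
        exact lX _ _ lB _ _
    · rw [← pow_add, ← pow_add, ← pow_mul]
      congr 1
      ring
  · have hω' : ∀ i, 0 ≤ Fin.tail ω i := fun i => hω _
    rw [pb_iff, finSucc_sh, ← hE, hP1, hω0, map_mul, map_pow, psi_X] at hν
    have nP := hν.of_lin_pow hξ o
    have he0 : (0 : ℝ) ≤ e := Nat.cast_nonneg e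
    refine lo_det_nu hω' (ξ 0) _ hA'D.le hBD (by linarith) (by linarith) ?_ ?_
    · rw [map_mul]
      exact (nP.mul_any hω' _).mono (by linarith)
    · rw [hB, map_sum]
      refine PB.sum _ _ fun a ha => ?_
      rw [map_mul, map_mul, psi_hasse]
      refine (((nP.hasse a).mul_any hω' _).mul_any hω' _).mono ?_
      have : (a : ℝ) ≤ e := by exact_mod_cast Nat.lt_succ_iff.1 (mem_range.1 ha)
      linarith

end Shift

end Pool.Agent.P.MP_6e34ef_nt.Roth
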